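import Mathlib

/-!
# Colourings of the points of an incidence structure, after Davies
-/

set_option autoImplicit false

namespace Q163.HN

open Set Cardinal

universe u

variable {G : Type u}

/-- The set is closed under the multivalued operation `T`. -/
def Cl (T : G → G → Set G) (C : Set G) : Prop := ∀ a ∈ C, ∀ b ∈ C, T a b ⊆ C

/-- The iterates. -/
def it (T : G → G → Set G) (A : Set G) : ℕ → Set G
  | 0 => A
  | k + 1 => it T A k ∪ ⋃ p : (it T A k) × (it T A k), T p.1 p.2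

/-- The closure. -/
def cl (T : G → G → Set G) (A : Set G) : Set G := ⋃ k, it T A k

variable {T : G → G → Set G}

theorem subset_cl (A : Set G) : A ⊆ cl T A := subset_iUnion (it T A) 0

theorem it_mono (A : Set G) : Monotone (it T A) :=
  monotone_nat_of_le_succ fun _ => subset_union_left

theorem cl_closed (A : Set G) : Cl T (cl T A) := by
  intro a ha b hb x hx
  obtain ⟨k, hk⟩ := mem_iUnion.1 ha
  obtain ⟨l, hl⟩ := mem_iUnion.1 hb
  refine mem_iUnion.2 ⟨max k l + 1, Or.inr (mem_iUnion.2 ⟨(⟨a, it_mono A (le_max_left k l) hk⟩,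
    ⟨b, it_mono A (le_max_right k l) hl⟩), hx⟩)⟩

theorem cl_min {A C : Set G} (h : A ⊆ C) (hC : Cl T C) : cl T A ⊆ C := by
  refine iUnion_subset fun k => ?_
  induction k with
  | zero => exact h
  | succ k ih =>
    refine union_subset ih (iUnion_subset fun p => ?_)
    exact hC _ (ih p.1.2) _ (ih p.2.2)

theorem cl_mono {A B : Set G} (h : A ⊆ B) : cl T A ⊆ cl T B :=
  cl_min (h.trans (subset_cl B)) (cl_closed B)

theorem mk_cl (hT : ∀ a b, (T a b).Countable) (A : Set G) : #(cl T A) ≤ max #A ℵ₀ := by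
  set κ : Cardinal.{u} := max #A ℵ₀ with hκ
  have h0 : ℵ₀ ≤ κ := le_max_right _ _
  have h1 : ∀ k, #(it T A k) ≤ κ := by
    intro k
    induction k with
    | zero => exact le_max_left _ _
    | succ k ih =>
      refine (mk_union_le _ _).trans ?_
      have h2 : #(⋃ p : (it T A k) × (it T A k), T p.1 p.2 : Set G) ≤ κ := by
        refine (mk_iUnion_le _).trans ?_
        have h3 : ⨆ p : (it T A k) × (it T A k), #(T p.1 p.2) ≤ κ :=
          ciSup_le' fun p => (le_aleph0_iff_set_countable.2 (hT _ _)).trans h0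
        have h4 : #((it T A k) × (it T A k)) ≤ κ := by
          rw [mk_prod]
          simp only [lift_id]
          exact (mul_le_mul' ih ih).trans (mul_eq_self h0).le
        exact (mul_le_mul' h4 h3).trans (mul_eq_self h0).le
      exact (add_le_add ih h2).trans (add_eq_self h0).le
  have h2 : cl T A = ⋃ k : ULift.{u} ℕ, it T A k.down := by
    ext x
    simp [cl]
  rw [h2]
  refine (mk_iUnion_le _).trans ?_
  have h3 : #(ULift.{u} ℕ) ≤ κ := by simpa using h0
  have h4 : ⨆ k : ULift.{u} ℕ, #(it T A k.down) ≤ κ := ciSup_le' fun k => h1 k.down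
  exact (mul_le_mul' h3 h4).trans (mul_eq_self h0).le

/-! ### The incidence structure -/

/-- The points on two different lines, and the lines through two different points. -/
def TT (R : ℕ → G → G → Prop) (a b : G) : Set G :=
  {x | ∃ n m, (a ≠ b ∨ n ≠ m) ∧ R n a x ∧ R m b x} ∪ {g | a ≠ b ∧ ∃ n, R n g a ∧ R n g b}

variable {R : ℕ → G → G → Prop}

theorem colour_sub {N : Set G} (hN : Cl (TT R) N) {x : G} (hx : x ∉ N) :
    {n | ∃ g ∈ N, R n g x}.Subsingleton := by
  rintro n ⟨g, hg, h1⟩ m ⟨g', hg', h2⟩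
  by_contra hnm
  exact hx (hN g hg g' hg' (Or.inl ⟨n, m, Or.inr hnm, h1, h2⟩))

theorem point_sub {N : Set G} (hN : Cl (TT R) N) {g : G} (hg : g ∉ N) (n : ℕ) :
    {x | x ∈ N ∧ R n g x}.Subsingleton := by
  rintro x ⟨hx, h1⟩ x' ⟨hx', h2⟩
  by_contra hne
  exact hg (hN x hx x' hx' (Or.inr ⟨hne, n, h1, h2⟩))

/-- The colouring avoids the lines of the sets in the family. -/
def Good (R : ℕ → G → G → Prop) (S : Set G) (Ns : Finset (Set G)) (χ : G → ℕ) : Prop :=
  (∀ x ∈ S, (∀ N ∈ Ns, x ∉ N) → ∀ N ∈ Ns, ∀ g ∈ N, ¬ R (χ x) g x) ∧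
  ∀ n g, {x | x ∈ S ∧ (∀ N ∈ Ns, x ∉ N) ∧ χ x = n ∧ R n g x}.Countable

theorem exists_colour (Ns : Finset (Set G)) (hNs : ∀ N ∈ Ns, Cl (TT R) N) (x : G) :
    ∃ n : ℕ, (∀ N ∈ Ns, x ∉ N) → ∀ N ∈ Ns, ∀ g ∈ N, ¬ R n g x := by
  by_cases hx : ∀ N ∈ Ns, x ∉ N
  · have h1 : (⋃ N ∈ Ns, {n | ∃ g ∈ N, R n g x}).Finite :=
      Ns.finite_toSet.biUnion fun N hN => (colour_sub (hNs N hN) (hx N hN)).finite
    obtain ⟨n, hn⟩ := h1.exists_notMem
    refine ⟨n, fun _ N hN g hg h => hn ?_⟩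
    exact mem_iUnion₂.2 ⟨N, hN, g, hg, h⟩
  · exact ⟨0, fun h => absurd h hx⟩

theorem main (hT : ∀ a b, (TT R a b).Countable) (κ : Cardinal.{u}) : ∀ S : Set G, #S = κ →
    Cl (TT R) S → ∀ Ns : Finset (Set G), (∀ N ∈ Ns, Cl (TT R) N) → ∃ χ, Good R S Ns χ := by
  classical
  induction κ using WellFoundedLT.induction with
  | _ κ ih =>
    intro S hS hSc Ns hNs
    by_cases hκ : κ ≤ ℵ₀
    · choose χ hχ using exists_colour Ns hNs
      refine ⟨χ, fun x _ hx => hχ x hx, fun n g => ?_⟩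
      rw [← hS, le_aleph0_iff_set_countable] at hκ
      exact hκ.mono fun x hx => hx.1
    rw [not_le] at hκ
    obtain ⟨e⟩ := Cardinal.eq.1 ((mk_ord_toType κ).trans hS.symm)
    let Lo : κ.ord.ToType → Set G := fun i => cl (TT R) ((fun j => (e j : G)) '' Iio i)
    let Hi : κ.ord.ToType → Set G := fun i => cl (TT R) ((fun j => (e j : G)) '' Iic i)
    have hLoc : ∀ i, Cl (TT R) (Lo i) := fun i => cl_closed _
    have hHic : ∀ i, Cl (TT R) (Hi i) := fun i => cl_closed _
    have hHiS : ∀ i, Hi i ⊆ S := fun i => cl_min (by rintro _ ⟨j, -, rfl⟩; exact (e j).2) hSc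
    have hHim : ∀ i j, i ≤ j → Hi i ⊆ Hi j := fun i j hij =>
      cl_mono (image_mono (Iic_subset_Iic.2 hij))
    have hHiLo : ∀ i j, i < j → Hi i ⊆ Lo j := fun i j hij =>
      cl_mono (image_mono fun l hl => lt_of_le_of_lt hl hij)
    have hLoHi : ∀ i, ∀ x ∈ Lo i, ∃ j < i, x ∈ Hi j := by
      intro i
      have h1 : Cl (TT R) {x | ∃ j < i, x ∈ Hi j} := by
        rintro a ⟨j, hj, ha⟩ b ⟨l, hl, hb⟩ x hx
        refine ⟨max j l, max_lt hj hl, hHic _ a (hHim _ _ (le_max_left _ _) ha) b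
          (hHim _ _ (le_max_right _ _) hb) hx⟩
      refine fun x hx => cl_min ?_ h1 hx
      rintro _ ⟨j, hj, rfl⟩
      exact ⟨j, hj, subset_cl _ ⟨j, mem_Iic.2 le_rfl, rfl⟩⟩
    have hcard : ∀ i, #(Hi i) < κ := by
      intro i
      refine (mk_cl hT _).trans_lt (max_lt ?_ hκ)
      refine mk_image_le.trans_lt ?_
      have := mk_Iic_lt (α := κ.ord.ToType) i (by simp) (by rw [mk_ord_toType]; exact hκ.le)
      rwa [mk_ord_toType] at this
    have hex : ∀ i, ∃ χ, Good R (Hi i) (insert (Lo i) Ns) χ := fun i =>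
      ih _ (hcard i) (Hi i) rfl (hHic i) _ (by
        intro N hN
        rcases Finset.mem_insert.1 hN with rfl | hN
        · exact hLoc i
        · exact hNs N hN)
    choose χ hχ using hex
    have hlev : ∀ x : G, x ∈ S → ∃ i, x ∈ Hi i := fun x hx =>
      ⟨e.symm ⟨x, hx⟩, subset_cl _ ⟨_, mem_Iic.2 le_rfl, by simp⟩⟩
    have hlev' : ∀ x : G, ∃ i : κ.ord.ToType, x ∈ S → x ∈ Hi i ∧ x ∉ Lo i := by
      intro x
      by_cases hx : x ∈ S
      · let m := WellFounded.min (wellFounded_lt (α := κ.ord.ToType)) {i | x ∈ Hi i} (hlev x hx)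
        refine ⟨m, fun _ => ⟨WellFounded.min_mem _ _ (hlev x hx), fun h => ?_⟩⟩
        obtain ⟨j, hj, hxj⟩ := hLoHi m x h
        exact WellFounded.not_lt_min (wellFounded_lt (α := κ.ord.ToType)) {i | x ∈ Hi i}
          (show j ∈ {i | x ∈ Hi i} from hxj) hj
      · have hne : Nonempty κ.ord.ToType := by
          rw [← mk_ne_zero_iff, mk_ord_toType]
          exact (aleph0_pos.trans hκ).ne'
        exact ⟨hne.some, fun h => absurd h hx⟩
    choose lev hlev2 using hlev'
    have hns : ∀ x ∈ S, (∀ N ∈ Ns, x ∉ N) → ∀ N ∈ insert (Lo (lev x)) Ns, x ∉ N := by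
      intro x hx hxN N hN
      rcases Finset.mem_insert.1 hN with rfl | hN
      · exact (hlev2 x hx).2
      · exact hxN N hN
    refine ⟨fun x => χ (lev x) x, fun x hx hxN N hN g hg => ?_, fun n g => ?_⟩
    · exact (hχ (lev x)).1 x (hlev2 x hx).1 (hns x hx hxN) N (Finset.mem_insert_of_mem hN) g hg
    · by_cases hg : g ∈ S
      · have h1 : ({x | x ∈ S ∧ (∀ N ∈ Ns, x ∉ N) ∧ χ (lev x) x = n ∧ R n g x} ⊆
            {x | x ∈ Hi (lev g) ∧ (∀ N ∈ insert (Lo (lev g)) Ns, x ∉ N) ∧ χ (lev g) x = n ∧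
              R n g x} ∪ {x | x ∈ Lo (lev g) ∧ R n g x}) := by
          rintro x ⟨hx, hxN, hxn, hR⟩
          rcases lt_trichotomy (lev x) (lev g) with h | h | h
          · exact Or.inr ⟨hHiLo _ _ h (hlev2 x hx).1, hR⟩
          · left
            rw [← h]
            exact ⟨(hlev2 x hx).1, hns x hx hxN, hxn, hR⟩
          · exfalso
            exact (hχ (lev x)).1 x (hlev2 x hx).1 (hns x hx hxN) _ (Finset.mem_insert_self _ _) g
              (hHiLo _ _ h (hlev2 g hg).1) (hxn ▸ hR)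
        refine Countable.mono h1 (Countable.union ((hχ (lev g)).2 n g) ?_)
        exact (point_sub (hLoc _) (hlev2 g hg).2 n).countable
      · refine Countable.mono ?_ (point_sub hSc hg n).countable
        rintro x ⟨hx, -, -, hR⟩
        exact ⟨hx, hR⟩

/-- Davies: a colouring such that each line meets the points of its own colour in a countable
set. -/
theorem davies (hT : ∀ a b, (TT R a b).Countable) :
    ∃ χ : G → ℕ, ∀ n g, {x | χ x = n ∧ R n g x}.Countable := by
  obtain ⟨χ, -, h⟩ := main hT _ univ rfl (fun _ _ _ _ => subset_univ _) ∅ (by simp)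
  refine ⟨χ, fun n g => Countable.mono ?_ (h n g)⟩
  rintro x ⟨h1, h2⟩
  exact ⟨mem_univ _, by simp, h1, h2⟩

end Q163.HN
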