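import Mathlib

/-!
# A sequence in an abelian Polish group whose signed products converge and are independent
-/

set_option autoImplicit false

namespace Q163.HN

open Set Filter Topology

variable {Z : Type*} [CommGroup Z] [MetricSpace Z] [IsTopologicalGroup Z]

/-- The exponents. -/
noncomputable def E : Finset ℤ := Finset.Icc (-2) 2

theorem zero_mem_E : (0 : ℤ) ∈ E := by simp [E]

theorem step (hnd : ∀ U ∈ 𝓝 (1 : Z), ∃ z ∈ U, z ≠ 1) (D : Finset Z) (V : Set Z) (hV : IsOpen V)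
    (h1 : (1 : Z) ∈ V) (k : ℕ) :
    ∃ g : Z, ∃ V' : Set Z, g ≠ 1 ∧ IsOpen V' ∧ (1 : Z) ∈ V' ∧
      (∀ ε ∈ E, ∀ v ∈ V', g ^ ε * v ∈ V) ∧
      ∀ d ∈ D, ∀ ε ∈ E, (d * g ^ ε ≠ 1 → (d * g ^ ε)⁻¹ ∉ closure V') ∧
        ∀ v ∈ V', dist (d * g ^ ε * v) (d * g ^ ε) < (1 / 2) ^ (k + 1) := by
  have hU : ∀ᶠ z in 𝓝 (1 : Z), ∀ ε ∈ E, z ^ ε ∈ V := by
    rw [Filter.eventually_all_finset]
    intro ε _
    have : Tendsto (fun z : Z => z ^ ε) (𝓝 1) (𝓝 1) := by
      have h2 := (continuous_zpow (G := Z) ε).tendsto 1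
      simpa using h2
    exact this.eventually (hV.mem_nhds h1)
  obtain ⟨g, hg, hg1⟩ := hnd _ hU
  have hS : ∀ᶠ v in 𝓝 (1 : Z), (∀ ε ∈ E, g ^ ε * v ∈ V) ∧ ∀ d ∈ D, ∀ ε ∈ E,
      (d * g ^ ε ≠ 1 → v ≠ (d * g ^ ε)⁻¹) ∧
        dist (d * g ^ ε * v) (d * g ^ ε) < (1 / 2) ^ (k + 1) := by
    refine Filter.Eventually.and ?_ ?_
    · rw [Filter.eventually_all_finset]
      intro ε hε
      have h2 : Tendsto (fun v : Z => g ^ ε * v) (𝓝 1) (𝓝 (g ^ ε)) := by
        have h3 := (continuous_const_mul (g ^ ε)).tendsto (1 : Z)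
        simpa using h3
      exact h2.eventually (hV.mem_nhds (hg ε hε))
    · rw [Filter.eventually_all_finset]
      intro d _
      rw [Filter.eventually_all_finset]
      intro ε hε
      refine Filter.Eventually.and ?_ ?_
      · by_cases hd : d * g ^ ε = 1
        · exact Filter.Eventually.of_forall fun v h => absurd hd h
        · have h2 : (1 : Z) ≠ (d * g ^ ε)⁻¹ := fun h => hd (by rw [eq_comm, inv_eq_one] at h; exact h)
          filter_upwards [isOpen_ne.mem_nhds h2] with v hv _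
          exact hv
      · have h2 : Tendsto (fun v : Z => d * g ^ ε * v) (𝓝 1) (𝓝 (d * g ^ ε)) := by
          have h3 := (continuous_const_mul (d * g ^ ε)).tendsto (1 : Z)
          simpa using h3
        exact h2.eventually (Metric.ball_mem_nhds _ (by positivity))
  obtain ⟨t, ht, htc, hts⟩ := exists_mem_nhds_isClosed_subset hS
  refine ⟨g, interior t, hg1, isOpen_interior, mem_interior_iff_mem_nhds.2 ht, ?_, ?_⟩
  · intro ε hε v hv
    exact (hts (interior_subset hv)).1 ε hε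
  · intro d hd ε hε
    refine ⟨fun h1 h2 => ?_, fun v hv => ((hts (interior_subset hv)).2 d hd ε hε).2⟩
    have h3 : (d * g ^ ε)⁻¹ ∈ t := closure_minimal interior_subset htc h2
    exact ((hts h3).2 d hd ε hε).1 h1 rfl

theorem exists_seq (hnd : ∀ U ∈ 𝓝 (1 : Z), ∃ z ∈ U, z ≠ 1) :
    ∃ (g : ℕ → Z) (D : ℕ → Finset Z) (V : ℕ → Set Z), (1 : Z) ∈ D 0 ∧ (∀ k, g k ≠ 1) ∧
      (∀ k, (1 : Z) ∈ V k) ∧ (∀ k, ∀ ε ∈ E, ∀ v ∈ V (k + 1), g k ^ ε * v ∈ V k) ∧
      (∀ k, ∀ d ∈ D k, ∀ ε ∈ E, d * g k ^ ε ∈ D (k + 1)) ∧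
      (∀ k, ∀ d ∈ D k, d ≠ 1 → d⁻¹ ∉ closure (V k)) ∧
      ∀ k, ∀ d ∈ D k, ∀ v ∈ V k, dist (d * v) d < (1 / 2) ^ k := by
  classical
  choose g V' h1 h2 h3 h4 h5 using fun (s : {p : Finset Z × Set Z // IsOpen p.2 ∧ (1 : Z) ∈ p.2})
    (k : ℕ) => step hnd s.1.1 s.1.2 s.2.1 s.2.2 k
  let nx : {p : Finset Z × Set Z // IsOpen p.2 ∧ (1 : Z) ∈ p.2} → ℕ →
      {p : Finset Z × Set Z // IsOpen p.2 ∧ (1 : Z) ∈ p.2} := fun s k =>
    ⟨((s.1.1 ×ˢ E).image fun q => q.1 * g s k ^ q.2, V' s k), h2 s k, h3 s k⟩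
  let sq : ℕ → {p : Finset Z × Set Z // IsOpen p.2 ∧ (1 : Z) ∈ p.2} := fun k =>
    Nat.rec ⟨({1}, Metric.ball 1 1), Metric.isOpen_ball, Metric.mem_ball_self one_pos⟩
      (fun k s => nx s k) k
  have hsq : ∀ k, sq (k + 1) = nx (sq k) k := fun k => rfl
  refine ⟨fun k => g (sq k) k, fun k => (sq k).1.1, fun k => (sq k).1.2, ?_, fun k => h1 _ _,
    fun k => (sq k).2.2, ?_, ?_, ?_, ?_⟩
  · exact Finset.mem_singleton_self _
  · intro k ε hε v hv
    exact h4 (sq k) k ε hε v hv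
  · intro k d hd ε hε
    exact Finset.mem_image.2 ⟨(d, ε), Finset.mem_product.2 ⟨hd, hε⟩, rfl⟩
  · intro k
    cases k with
    | zero =>
      intro d hd hne
      exact absurd (Finset.mem_singleton.1 hd) hne
    | succ k =>
      intro d hd hne
      obtain ⟨⟨d', ε⟩, hq, rfl⟩ := Finset.mem_image.1 hd
      obtain ⟨hd', hε⟩ := Finset.mem_product.1 hq
      exact (h5 (sq k) k d' hd' ε hε).1 hne
  · intro k
    cases k with
    | zero =>
      intro d hd v hv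
      have hv2 : v ∈ Metric.ball (1 : Z) 1 := hv
      rw [Finset.mem_singleton.1 hd]
      simpa using hv2
    | succ k =>
      intro d hd v hv
      obtain ⟨⟨d', ε⟩, hq, rfl⟩ := Finset.mem_image.1 hd
      obtain ⟨hd', hε⟩ := Finset.mem_product.1 hq
      exact (h5 (sq k) k d' hd' ε hε).2 v hv

theorem exists_indep [CompleteSpace Z] (hnd : ∀ U ∈ 𝓝 (1 : Z), ∃ z ∈ U, z ≠ 1) :
    ∃ g : ℕ → Z, (∀ χ : ℕ → ℤ, (∀ j, χ j ∈ E) →
      ∃ L, Tendsto (fun m => ∏ j ∈ Finset.range m, g j ^ χ j) atTop (𝓝 L)) ∧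
      ∀ χ : ℕ → ℤ, (∀ j, χ j ∈ E) →
        Tendsto (fun m => ∏ j ∈ Finset.range m, g j ^ χ j) atTop (𝓝 1) →
        ∀ j, χ j ≠ 1 ∧ χ j ≠ -1 := by
  obtain ⟨g, D, V, hD0, hg, hV1, hV, hD, hDV, hd⟩ := exists_seq hnd
  have hp : ∀ χ : ℕ → ℤ, (∀ j, χ j ∈ E) → ∀ m, ∏ j ∈ Finset.range m, g j ^ χ j ∈ D m := by
    intro χ hχ m
    induction m with
    | zero => simpa using hD0
    | succ m ih =>
      rw [Finset.prod_range_succ]
      exact hD m _ ih _ (hχ m)
  have ht : ∀ χ : ℕ → ℤ, (∀ j, χ j ∈ E) → ∀ n k, ∃ v ∈ V k,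
      ∏ j ∈ Finset.range (k + n), g j ^ χ j = (∏ j ∈ Finset.range k, g j ^ χ j) * v := by
    intro χ hχ n
    induction n with
    | zero => exact fun k => ⟨1, hV1 k, by simp⟩
    | succ n ih =>
      intro k
      obtain ⟨v, hv, h⟩ := ih (k + 1)
      refine ⟨g k ^ χ k * v, hV k _ (hχ k) v hv, ?_⟩
      rw [show k + (n + 1) = k + 1 + n by ring, h, Finset.prod_range_succ, mul_assoc]
  refine ⟨g, ?_, ?_⟩
  · intro χ hχ
    have h1 : CauchySeq fun m => ∏ j ∈ Finset.range m, g j ^ χ j := by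
      refine cauchySeq_of_le_geometric (1 / 2) 1 (by norm_num) fun m => ?_
      obtain ⟨v, hv, h⟩ := ht χ hχ 1 m
      rw [h, one_mul, dist_comm]
      exact (hd m _ (hp χ hχ m) v hv).le
    exact cauchySeq_tendsto_of_complete h1
  · intro χ hχ hL j
    have h1 : ∀ k, ∏ j ∈ Finset.range k, g j ^ χ j = 1 := by
      intro k
      by_contra hne
      refine hDV k _ (hp χ hχ k) hne ?_
      have h2 : Tendsto (fun m => (∏ j ∈ Finset.range k, g j ^ χ j)⁻¹ *
          ∏ j ∈ Finset.range (k + m), g j ^ χ j) atTop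
          (𝓝 ((∏ j ∈ Finset.range k, g j ^ χ j)⁻¹ * 1)) := by
        refine Tendsto.const_mul _ ?_
        have h3 : Tendsto (fun m : ℕ => k + m) atTop atTop :=
          tendsto_atTop_mono (fun m => Nat.le_add_left m k) tendsto_id
        exact hL.comp h3
      rw [mul_one] at h2
      refine mem_closure_of_tendsto h2 (Filter.Eventually.of_forall fun m => ?_)
      obtain ⟨v, hv, h⟩ := ht χ hχ m k
      rw [h, inv_mul_cancel_left]
      exact hv
    have h2 : g j ^ χ j = 1 := by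
      have h3 := h1 (j + 1)
      rwa [Finset.prod_range_succ, h1 j, one_mul] at h3
    constructor
    · intro h
      rw [h, zpow_one] at h2
      exact hg j h2
    · intro h
      rw [h, zpow_neg, zpow_one, inv_eq_one] at h2
      exact hg j h2

end Q163.HN
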