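import Pool.Agent.Q163.HN.B

/-!
# A Borel injection of the Cantor space into an abelian Polish group, with different differences
-/

set_option autoImplicit false

namespace Q163.HN

open Set Filter Topology

/-- The branch of the sequence, as a sequence of zeros and ones. -/
def ind (f : ℕ → Bool) (j : ℕ) : ℤ :=
  if Encodable.encode (fun i : Fin j.unpair.1 => f i) = j.unpair.2 then 1 else 0

theorem ind_mem (f : ℕ → Bool) (j : ℕ) : ind f j = 0 ∨ ind f j = 1 := by
  unfold ind
  split_ifs
  · exact Or.inr rfl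
  · exact Or.inl rfl

theorem measurable_ind (j : ℕ) : Measurable fun f : ℕ → Bool => ind f j := by
  have h1 : Measurable fun f : ℕ → Bool => (fun i : Fin j.unpair.1 => f i) :=
    measurable_pi_lambda _ fun i => measurable_pi_apply _
  have h2 : Measurable fun s : Fin j.unpair.1 → Bool =>
      (if Encodable.encode s = j.unpair.2 then (1 : ℤ) else 0) := Measurable.of_discrete
  exact h2.comp h1

theorem ind_pair (f : ℕ → Bool) (n : ℕ) (s : Fin n → Bool) :
    ind f (Nat.pair n (Encodable.encode s)) = if (∀ i : Fin n, f i = s i) then 1 else 0 := by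
  unfold ind
  have h1 : (Nat.pair n (Encodable.encode s)).unpair = (n, Encodable.encode s) :=
    Nat.unpair_pair _ _
  have key : ∀ m k : ℕ, (hm : n = m) → Encodable.encode s = k →
      ((Encodable.encode (fun i : Fin m => f i) = k) ↔ ∀ i : Fin n, f i = s i) := by
    rintro m k rfl rfl
    rw [Encodable.encode_inj, funext_iff]
  have h2 := key _ _ (congrArg Prod.fst h1).symm (congrArg Prod.snd h1).symm
  simp only [h2]

theorem exists_sep (a b : ℕ → Bool) : ∃ n, ∀ m, n ≤ m → ((∀ i : Fin m, b i = a i) ↔ b = a) := by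
  by_cases h : b = a
  · exact ⟨0, fun m _ => ⟨fun _ => h, fun h i => by rw [h]⟩⟩
  · obtain ⟨i, hi⟩ := Function.ne_iff.1 h
    refine ⟨i + 1, fun m hm => ⟨fun h2 => absurd (h2 ⟨i, by omega⟩) hi, fun h2 => absurd h2 h⟩⟩

theorem parity {a b p q : ℕ → Bool}
    (h : ∀ j, ind a j + ind q j - ind b j - ind p j ≠ 1 ∧
      ind a j + ind q j - ind b j - ind p j ≠ -1) (hab : a ≠ b) :
    (p = a ∧ q = b) ∨ (p = b ∧ q = a) := by
  classical
  have key : ∀ x : ℕ → Bool, ∃ j, ∀ y ∈ ({a, b, p, q} : Set (ℕ → Bool)),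
      ind y j = if y = x then 1 else 0 := by
    intro x
    obtain ⟨n1, h1⟩ := exists_sep x a
    obtain ⟨n2, h2⟩ := exists_sep x b
    obtain ⟨n3, h3⟩ := exists_sep x p
    obtain ⟨n4, h4⟩ := exists_sep x q
    refine ⟨Nat.pair (n1 + n2 + n3 + n4) (Encodable.encode
      (fun i : Fin (n1 + n2 + n3 + n4) => x i)), ?_⟩
    rintro y (rfl | rfl | rfl | rfl)
    · rw [ind_pair]
      simp only [h1 _ (show n1 ≤ n1 + n2 + n3 + n4 by omega)]
    · rw [ind_pair]
      simp only [h2 _ (show n2 ≤ n1 + n2 + n3 + n4 by omega)]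
    · rw [ind_pair]
      simp only [h3 _ (show n3 ≤ n1 + n2 + n3 + n4 by omega)]
    · rw [ind_pair]
      simp only [h4 _ (show n4 ≤ n1 + n2 + n3 + n4 by omega)]
  obtain ⟨j1, hj1⟩ := key a
  obtain ⟨j2, hj2⟩ := key b
  have e1 := h j1
  have e2 := h j2
  rw [hj1 a (by simp), hj1 b (by simp), hj1 p (by simp), hj1 q (by simp), if_pos rfl,
    if_neg (Ne.symm hab)] at e1
  rw [hj2 a (by simp), hj2 b (by simp), hj2 p (by simp), hj2 q (by simp), if_pos rfl,
    if_neg hab] at e2
  by_cases h1 : p = a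
  · left
    refine ⟨h1, ?_⟩
    by_contra h2
    rw [if_neg h2, if_neg (by rw [h1]; exact hab)] at e2
    exact e2.2 (by norm_num)
  · rw [if_neg h1] at e1
    have h2 : q = a := by
      by_contra h2
      rw [if_neg h2] at e1
      exact e1.1 (by norm_num)
    rw [if_neg (by rw [h2]; exact hab)] at e2
    have h3 : p = b := by
      by_contra h3
      rw [if_neg h3] at e2
      exact e2.2 (by norm_num)
    exact Or.inr ⟨h3, h2⟩

variable {Z : Type*} [CommGroup Z] [MetricSpace Z] [IsTopologicalGroup Z]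

theorem exists_inj [CompleteSpace Z] [MeasurableSpace Z] [BorelSpace Z]
    [SecondCountableTopology Z]
    (hnd : ∀ U ∈ 𝓝 (1 : Z), ∃ z ∈ U, z ≠ 1) :
    ∃ c : (ℕ → Bool) → Z, Measurable c ∧ ∀ a b p q : ℕ → Bool, a ≠ b →
      c a * (c b)⁻¹ = c p * (c q)⁻¹ → (p = a ∧ q = b) ∨ (p = b ∧ q = a) := by
  obtain ⟨g, hconv, hzero⟩ := exists_indep hnd
  have hE : ∀ f j, ind f j ∈ E := by
    intro f j
    rcases ind_mem f j with h | h <;> simp [h, E]
  choose c hc using fun f : ℕ → Bool => hconv (ind f) (hE f)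
  refine ⟨c, ?_, ?_⟩
  · refine measurable_of_tendsto_metrizable (f := fun m f => ∏ j ∈ Finset.range m, g j ^ ind f j)
      (fun m => ?_) (tendsto_pi_nhds.2 hc)
    refine Finset.measurable_prod _ fun j _ => ?_
    have h1 : Measurable fun z : ℤ => g j ^ z := Measurable.of_discrete
    exact h1.comp (measurable_ind j)
  · intro a b p q hab h
    refine parity (a := a) (b := b) (p := p) (q := q) ?_ hab
    refine hzero (fun j => ind a j + ind q j - ind b j - ind p j) ?_ ?_
    · intro j
      rcases ind_mem a j with h1 | h1 <;> rcases ind_mem b j with h2 | h2 <;>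
        rcases ind_mem p j with h3 | h3 <;> rcases ind_mem q j with h4 | h4 <;>
        simp [h1, h2, h3, h4, E]
    · have h1 : Tendsto (fun m => (∏ j ∈ Finset.range m, g j ^ ind a j) *
          (∏ j ∈ Finset.range m, g j ^ ind q j) * (∏ j ∈ Finset.range m, g j ^ ind b j)⁻¹ *
          (∏ j ∈ Finset.range m, g j ^ ind p j)⁻¹) atTop
          (𝓝 (c a * c q * (c b)⁻¹ * (c p)⁻¹)) :=
        (((hc a).mul (hc q)).mul (hc b).inv).mul (hc p).inv
      have h2 : c a * c q * (c b)⁻¹ * (c p)⁻¹ = 1 := by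
        rw [mul_inv_eq_one, mul_right_comm, h, inv_mul_cancel_right]
      rw [h2] at h1
      refine h1.congr fun m => ?_
      rw [← Finset.prod_inv_distrib, ← Finset.prod_inv_distrib, ← Finset.prod_mul_distrib,
        ← Finset.prod_mul_distrib, ← Finset.prod_mul_distrib]
      refine Finset.prod_congr rfl fun j _ => ?_
      rw [zpow_sub, zpow_sub, zpow_add]

end Q163.HN
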