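import Pool.Agent.Q163.HN.A
import Pool.Agent.Q163.HN.C

/-!
# Polish groups with an uncountable centre are countable unions of naively Haar null sets
-/

set_option autoImplicit false

namespace Q163.HN

open Set Filter Topology MeasureTheory

/-- The sequences whose first one is at the given place. -/
def emb (n : ℕ) (ζ : ℕ → Bool) (i : ℕ) : Bool :=
  if i < n then false else if i = n then true else ζ (i - (n + 1))

theorem measurable_emb (n : ℕ) : Measurable (emb n) := by
  refine measurable_pi_lambda _ fun i => ?_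
  unfold emb
  split_ifs
  · exact measurable_const
  · exact measurable_const
  · exact measurable_pi_apply _

theorem emb_inj {n m : ℕ} {ζ η : ℕ → Bool} (h : emb n ζ = emb m η) : n = m ∧ ζ = η := by
  have hnm : n = m := by
    rcases lt_trichotomy n m with hlt | heq | hgt
    · have h1 := congrFun h n
      simp [emb, hlt] at h1
    · exact heq
    · have h1 := congrFun h m
      simp [emb, hgt] at h1
  subst hnm
  refine ⟨rfl, funext fun i => ?_⟩
  have h1 := congrFun h (n + 1 + i)
  have h2 : ¬ n + 1 + i < n := by omega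
  have h3 : ¬ n + 1 + i = n := by omega
  simpa [emb, h2, h3] using h1

theorem exists_ne_one (Z : Type*) [Group Z] [TopologicalSpace Z] [IsTopologicalGroup Z]
    [SecondCountableTopology Z] (hZ : ¬ Countable Z) : ∀ U ∈ 𝓝 (1 : Z), ∃ z ∈ U, z ≠ 1 := by
  intro U hU
  by_contra hcon
  push Not at hcon
  have h1 : IsOpen ({1} : Set Z) := by
    rw [isOpen_singleton_iff_nhds_eq_pure]
    refine le_antisymm ?_ (pure_le_nhds 1)
    rw [Filter.le_pure_iff]
    exact Filter.mem_of_superset hU fun z hz => hcon z hz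
  have h2 := discreteTopology_of_isOpen_singleton_one h1
  exact hZ (TopologicalSpace.separableSpace_iff_countable.1 inferInstance)

section

variable {G : Type*} [Group G] [TopologicalSpace G] [IsTopologicalGroup G] [PolishSpace G]
  [MeasurableSpace G] [BorelSpace G]

theorem exists_central (hZ : ¬ (Set.center G).Countable) :
    ∃ c : (ℕ → Bool) → G, Measurable c ∧ (∀ f g, g * c f = c f * g) ∧
      ∀ a b p q : ℕ → Bool, a ≠ b → c a * (c b)⁻¹ = c p * (c q)⁻¹ →
        (p = a ∧ q = b) ∨ (p = b ∧ q = a) := by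
  have h : IsClosed ((Subgroup.center G : Subgroup G) : Set G) := by
    have h2 := Set.isClosed_centralizer (univ : Set G)
    rwa [Set.centralizer_univ] at h2
  have : PolishSpace (Subgroup.center G) := h.isClosedEmbedding_subtypeVal.polishSpace
  have hnd := exists_ne_one (Subgroup.center G) (fun hc => hZ hc.to_set)
  let _i1 : CommGroup (Subgroup.center G) :=
    { (inferInstance : Group (Subgroup.center G)) with
      mul_comm := fun a b => Subtype.ext (b.2.comm a).symm }
  let _i2 := TopologicalSpace.upgradeIsCompletelyMetrizable (Subgroup.center G)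
  obtain ⟨c, hc, hd⟩ := exists_inj (Z := Subgroup.center G) hnd
  refine ⟨fun f => (c f : G), measurable_subtype_coe.comp hc, fun f g => ?_, ?_⟩
  · exact Subgroup.mem_center_iff.1 (c f).2 g
  · intro a b p q hab he
    exact hd a b p q hab (Subtype.ext he)

theorem partition {c : (ℕ → Bool) → G} (hc : Measurable c) (hcent : ∀ f g, g * c f = c f * g)
    (hd : ∀ a b p q : ℕ → Bool, a ≠ b → c a * (c b)⁻¹ = c p * (c q)⁻¹ →
      (p = a ∧ q = b) ∨ (p = b ∧ q = a)) :
    ∃ X : ℕ → Set G, Pairwise (Function.onFun Disjoint X) ∧ ⋃ n, X n = univ ∧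
      ∀ n, ∃ μ : Measure G, IsProbabilityMeasure μ ∧
        ∀ g h : G, μ ((fun x => g * x * h) '' X n) = 0 := by
  have hinj : Function.Injective c := by
    intro a b hab
    by_contra hne
    rcases hd a b a a hne (by rw [hab]) with h | h
    · exact hne h.2
    · exact hne h.1
  have hpairs : ∀ w : G, {uv : (ℕ → Bool) × (ℕ → Bool) | uv.1 ≠ uv.2 ∧
      c uv.1 * (c uv.2)⁻¹ = w}.Countable := by
    intro w
    rcases Set.eq_empty_or_nonempty {uv : (ℕ → Bool) × (ℕ → Bool) | uv.1 ≠ uv.2 ∧
      c uv.1 * (c uv.2)⁻¹ = w} with h | ⟨⟨u0, v0⟩, h0, h1⟩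
    · rw [h]; exact countable_empty
    · refine Countable.mono ?_ ((countable_singleton (v0, u0)).insert (u0, v0))
      rintro ⟨u, v⟩ ⟨h2, h3⟩
      rcases hd u0 v0 u v h0 (h1.trans h3.symm) with ⟨rfl, rfl⟩ | ⟨rfl, rfl⟩
      · exact Or.inl rfl
      · exact Or.inr rfl
  let R : ℕ → G → G → Prop := fun n g x => ∃ ζ, g * c (emb n ζ) = x
  have hT : ∀ a b, (TT R a b).Countable := by
    intro a b
    refine Countable.union ?_ ?_
    · refine Countable.mono ?_ ((hpairs (a⁻¹ * b)).image fun uv => a * c uv.1)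
      rintro x ⟨n, m, hne, ⟨ζ, hζ⟩, ⟨η, hη⟩⟩
      refine ⟨(emb n ζ, emb m η), ⟨fun h => ?_, ?_⟩, hζ⟩
      · have h' : emb n ζ = emb m η := h
        rw [← hη, h'] at hζ
        have h1 := mul_right_cancel hζ
        rcases hne with h2 | h2
        · exact h2 h1
        · exact h2 (emb_inj h').1
      · have h1 : c (emb n ζ) = a⁻¹ * x := by rw [← hζ, inv_mul_cancel_left]
        have h2 : c (emb m η) = b⁻¹ * x := by rw [← hη, inv_mul_cancel_left]
        show c (emb n ζ) * (c (emb m η))⁻¹ = a⁻¹ * b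
        rw [h1, h2]
        group
    · refine Countable.mono ?_ ((hpairs (a⁻¹ * b)).image fun uv => a * (c uv.2)⁻¹)
      rintro g ⟨hab, n, ⟨ζ, hζ⟩, ⟨η, hη⟩⟩
      refine ⟨(emb n η, emb n ζ), ⟨fun h => ?_, ?_⟩, ?_⟩
      · have h' : emb n η = emb n ζ := h
        rw [← hζ, ← hη, h'] at hab
        exact hab rfl
      · show c (emb n η) * (c (emb n ζ))⁻¹ = a⁻¹ * b
        rw [← hζ, ← hη, mul_inv_rev, mul_assoc, inv_mul_cancel_left, mul_inv_eq_iff_eq_mul,
          mul_assoc, hcent (emb n ζ), inv_mul_cancel_left]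
      · show a * (c (emb n ζ))⁻¹ = g
        rw [← hζ, mul_inv_cancel_right]
  obtain ⟨χ, hχ⟩ := davies hT
  refine ⟨fun n => {x | χ x = n}, ?_, ?_, fun n => ?_⟩
  · intro n m hnm
    refine Set.disjoint_left.2 fun x (hx : χ x = n) (hx' : χ x = m) => hnm (hx.symm.trans hx')
  · exact Set.eq_univ_of_forall fun x => mem_iUnion.2 ⟨χ x, rfl⟩
  let ψ : ℝ → G := fun t => c (emb n (MeasurableSpace.mapNatBool ℝ t))
  have hψm : Measurable ψ :=
    hc.comp ((measurable_emb n).comp (MeasurableSpace.measurable_mapNatBool ℝ))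
  have hψi : Function.Injective ψ := by
    intro s t hst
    exact MeasurableSpace.injective_mapNatBool ℝ (emb_inj (hinj hst)).2
  have hψ : MeasurableEmbedding ψ := hψm.measurableEmbedding hψi
  have : IsProbabilityMeasure ((volume : Measure ℝ).restrict (Icc 0 1)) := ⟨by simp⟩
  refine ⟨((volume : Measure ℝ).restrict (Icc 0 1)).map ψ,
    Measure.isProbabilityMeasure_map hψm.aemeasurable, fun g h => ?_⟩
  rw [hψ.map_apply]
  refine Set.Countable.measure_zero ?_ _
  have h1 := ((hχ n (g⁻¹ * h⁻¹)).image fun x => g * x * h).preimage hψi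
  refine Countable.mono ?_ h1
  rintro t ⟨x, hx, hxt⟩
  refine ⟨x, ⟨hx, MeasurableSpace.mapNatBool ℝ t, ?_⟩, hxt⟩
  have hxt' : g * x * h = ψ t := hxt
  have h2 : x = g⁻¹ * ψ t * h⁻¹ := by rw [← hxt']; group
  rw [h2, mul_assoc, mul_assoc, hcent]

end

end Q163.HN
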